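import Pool.Agent.Hp428.LG.G

set_option autoImplicit false

/-!
# Standard L-functions: size to the right of a line, and back to the line (heights in nested sets)
-/

namespace Pool.Agent.H875.TG

open Complex Filter Topology Set
open Pool.Agent.W169.HF
open Pool.Agent.Hp428.LG
open H353.E H353.F
open scoped ComplexConjugate

variable {m : ℕ} {P : Cls m}

/-- a trivial bound, all conductors -/
lemma ly_triv (hm : 1 ≤ m) {R : ℝ} (hR : 1 ≤ R) : ∃ B : ℝ, ∀ (N : ℝ) (μ : Fin m → ℂ) (α : Fin m → ℕ → ℂ) (e : ℂ)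
    (Λ : ℂ → ℂ), Std N μ α e Λ → ∀ (y : ℝ) (u : ℂ), 0 ≤ u.re → u.re ≤ R → |u.im| ≤ R →
      ‖ly μ Λ y u‖ ≤ Real.exp (B + Real.log (cnd N μ y)) := by
  have hm' : (1 : ℝ) ≤ m := by exact_mod_cast hm
  obtain ⟨B, hB, HS⟩ := sharpX m hm (show (0 : ℝ) ≤ 1 / 2 by norm_num) le_rfl
    (show (0 : ℝ) < 1 / 2 by norm_num) (by norm_num)
  have hlogB : 0 ≤ Real.log B := Real.log_nonneg hB
  obtain ⟨K, hK⟩ : ∃ K : ℝ, K = Real.log B + 20 * (6 * m) := ⟨_, rfl⟩
  have hK0 : 0 ≤ K := by rw [hK]; positivity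
  refine ⟨K * (1 + 2 * R ^ 2) + 231 * m * (1 + 2 * R ^ 2) + 15 / 2 * m, fun N μ α e Λ hS y u u0 u1 u2 => ?_⟩
  have hN := hS.1.one_le
  have hμ := hS.1.re_le
  obtain ⟨S, hslow, -, -, -⟩ := HS N μ α e Λ hS.1
  have ud := ud_of_sharp S hslow (by norm_num) y
  have e3 : (1 + 1 / 2 + 1 / 2 - 1 / 2 : ℝ) = 3 / 2 := by norm_num
  rw [e3, ← hK] at ud
  have h1 := ud.up u
  change ‖fy N Λ y u‖ ≤ Gy N μ y * Real.exp (el N μ y * max |u.re| (3 / 2) + K * (1 + ‖u‖ ^ 2)) at h1
  have hG := Gy_pos hm hN hμ y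
  have hn := nsq' (R := R) (by rw [abs_of_nonneg u0]; exact u1) u2
  have hx0 : 0 ≤ max |u.re| (3 / 2) - u.re := by
    have := le_max_left |u.re| (3 / 2)
    have := le_abs_self u.re
    linarith
  have hx1 : max |u.re| (3 / 2) - u.re ≤ 3 / 2 := by
    have : max |u.re| (3 / 2) ≤ u.re + 3 / 2 := by
      rw [abs_of_nonneg u0]
      exact max_le (by linarith) (by linarith)
    linarith
  have hel0 : el N μ y ≤ max (el N μ y) 0 := le_max_left _ _
  have hel1 : 0 ≤ max (el N μ y) 0 := le_max_right _ _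
  have h2 : el N μ y * (max |u.re| (3 / 2) - u.re) ≤ max (el N μ y) 0 * (3 / 2) :=
    (mul_le_mul_of_nonneg_right hel0 hx0).trans (mul_le_mul_of_nonneg_left hx1 hel1)
  have h2' : K * (1 + ‖u‖ ^ 2) ≤ K * (1 + 2 * R ^ 2) := mul_le_mul_of_nonneg_left (by linarith) hK0
  have h3 : ‖fy N Λ y u‖ ≤ Gy N μ y * Real.exp (el N μ y * u.re +
      (max (el N μ y) 0 * (3 / 2) + K * (1 + 2 * R ^ 2))) := by
    refine h1.trans (mul_le_mul_of_nonneg_left (Real.exp_le_exp.2 ?_) hG.le)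
    rw [mul_sub] at h2
    linarith
  refine (ly_le hm hN hμ u0 u1 u2 h3).trans (Real.exp_le_exp.2 ?_)
  have hL0 := Real.log_nonneg (cnd_pos hN μ y)
  have h6 := el_le hN hμ y
  have h7 : max (el N μ y) 0 ≤ 1 / 2 * Real.log (cnd N μ y) + 5 * m := max_le h6 (by positivity)
  linarith

/-- the size to the right of a line, heights in nested sets -/
theorem sup_right (hm : 1 ≤ m) {Y : ℝ → Set ℝ} (hY : Nest Y) {r a : ℝ} (hr : 0 ≤ r) (hr1 : r ≤ 1 / 2)
    (ha : 0 ≤ a) (h : ∀ T : ℝ, SY P (Y T) r a) (ε R T : ℝ) (hε : 0 < ε) (hR : 1 ≤ R) :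
    ∃ B : ℝ, ∀ (N : ℝ) (μ : Fin m → ℂ) (α : Fin m → ℕ → ℂ) (e : ℂ) (Λ : ℂ → ℂ), P N μ α e Λ → Std N μ α e Λ →
      ∀ y ∈ Y T, ∀ u : ℂ, r ≤ u.re → u.re ≤ R → |u.im| ≤ R →
        ‖ly μ Λ y u‖ ≤ Real.exp (B + (a + ε) * Real.log (cnd N μ y)) := by
  obtain ⟨κ1, R1, hκ1, hR1, HR⟩ := rect_all (2 + 2 * a) (4 - r) ε R (by positivity) (by linarith) (by linarith)
    hε hR
  obtain ⟨B0, HB⟩ := h (T + R1) (κ1 / 4) (by positivity)
  obtain ⟨Bf, hBf, hfar⟩ := ly_far m
  obtain ⟨B2, HT⟩ := ly_triv hm hR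
  obtain ⟨K1, hK1⟩ : ∃ K1 : ℝ, K1 = |B0| + |Real.log Bf| +
    (a + κ1 / 4) * (14 * m + m * Real.log (1 + |R1|)) := ⟨_, rfl⟩
  have hR10 : 0 ≤ R1 := by linarith
  have hlr : 0 ≤ Real.log (1 + |R1|) := Real.log_nonneg (by linarith [abs_nonneg R1])
  have hK10 : 0 ≤ (a + κ1 / 4) * (14 * m + m * Real.log (1 + |R1|)) := by positivity
  obtain ⟨C0, HA⟩ := lyA hm (κ := 1) (R := max R1 4) (W := max 0 (K1 * 2 / κ1)) one_pos le_rfl
    (le_trans (by norm_num) (le_max_right _ _))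
  refine ⟨max (max (5 * m * (2 * a + ε)) (B2 + Real.log (max C0 1))) (Real.log Bf),
    fun N μ α e Λ hP hS y hy u u0 u1 u2 => ?_⟩
  have hN := hS.1.one_le
  have hμ := hS.1.re_le
  have hc := cnd_pos hN μ y
  have hL0 : 0 ≤ Real.log (cnd N μ y) := Real.log_nonneg hc
  have hL1 : 0 ≤ (a + ε) * Real.log (cnd N μ y) := by positivity
  have m1 := le_max_left (max (5 * m * (2 * a + ε)) (B2 + Real.log (max C0 1))) (Real.log Bf)
  have m2 := le_max_right (max (5 * m * (2 * a + ε)) (B2 + Real.log (max C0 1))) (Real.log Bf)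
  have m3 := le_max_left (5 * m * (2 * a + ε)) (B2 + Real.log (max C0 1))
  have m4 := le_max_right (5 * m * (2 * a + ε)) (B2 + Real.log (max C0 1))
  have hre : ∀ w : ℂ, (1 / 2 + (y : ℂ) * I + w).re = 1 / 2 + w.re := fun w => (pre y w).1
  have far : ∀ w : ℂ, 7 / 2 ≤ w.re → ‖ly μ Λ y w‖ ≤ Real.exp (Real.log Bf) := fun w hw => by
    rw [Real.exp_log hBf]
    exact hfar N μ α e Λ hS _ (by rw [hre]; linarith)
  rcases le_total (cnd N μ y) (max C0 1) with hsm | hbig
  · refine (HT N μ α e Λ hS y u (hr.trans u0) u1 u2).trans (Real.exp_le_exp.2 ?_)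
    have h3 : Real.log (cnd N μ y) ≤ Real.log (max C0 1) := Real.log_le_log (by linarith) hsm
    linarith
  obtain ⟨hel, HU⟩ := HA N μ α e Λ hS y ((le_max_left _ _).trans hbig)
  have hℓ : 0 ≤ el N μ y := (le_max_left _ _).trans hel
  have hel2 := (le_max_right _ _).trans hel
  rw [div_le_iff₀ hκ1] at hel2
  rcases le_or_gt (7 / 2) u.re with c1 | c1
  · exact (far u c1).trans (Real.exp_le_exp.2 (by linarith))
  have hlo := el_ge hN hμ y
  have haℓ : 0 ≤ el N μ y * (2 * a) := by positivity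
  have key := HR (el N μ y) r (2 * a) (2 * a) 1 (ly μ Λ y) hℓ one_pos (ly_diff hS.1.entire y)
    (by rw [abs_of_nonneg (by linarith)]; linarith) (by rw [abs_of_nonneg (by linarith)]; linarith)
    (fun w hw1 hw2 => by
      have e1 : ly μ Λ y w = LL μ Λ (1 / 2 + (r : ℂ) + ((y + w.im : ℝ) : ℂ) * I) := by
        unfold ly
        congr 1
        apply Complex.ext
        · simp [hw1]
        · simp
      rw [e1, one_mul]
      have h2 := HB N μ α e Λ hP hS (y + w.im) (hY T R1 y (y + w.im) hR10 hy (by simpa using hw2))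
      refine h2.trans (Real.exp_le_exp.2 ?_)
      have h3 := logm_shift hN μ (y := y + w.im) (y' := y) (R := R1) (by
        rw [show y - (y + w.im) = -w.im by ring, abs_neg]
        exact hw2.trans (le_abs_self R1))
      have h5 : (a + κ1 / 4) * Real.log (cnd N μ (y + w.im)) ≤
          (a + κ1 / 4) * (2 * el N μ y + 14 * m + m * Real.log (1 + |R1|)) :=
        mul_le_mul_of_nonneg_left (by linarith) (by positivity)
      have hB := le_abs_self B0
      have hB' := abs_nonneg (Real.log Bf)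
      rw [hK1] at hel2
      linarith)
    (fun w hw1 hw2 => by
      rw [one_mul]
      refine (far w (by rw [hw1]; linarith)).trans (Real.exp_le_exp.2 ?_)
      have hB := le_abs_self (Real.log Bf)
      have hB' := abs_nonneg B0
      have hp : 0 ≤ κ1 * el N μ y := by positivity
      rw [hK1] at hel2
      linarith)
    (fun w hw1 hw2 hw3 => by
      rw [one_mul]
      refine (HU w (hr.trans hw1) ?_ ?_).trans (Real.exp_le_exp.2 ?_)
      · have := le_max_right R1 4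
        linarith
      · rw [hw3]; exact le_max_left _ _
      · have h5 : max (1 / 2 - w.re) 0 ≤ 1 := max_le (by linarith) (by norm_num)
        have h6 := mul_le_mul_of_nonneg_left h5 hℓ
        linarith) u u0 (by linarith) u2
  rw [one_mul, sub_self, zero_mul, add_zero] at key
  refine key.trans (Real.exp_le_exp.2 ?_)
  have h6 := el_le hN hμ y
  have h7 : el N μ y * (2 * a + ε) ≤ (1 / 2 * Real.log (cnd N μ y) + 5 * m) * (2 * a + ε) :=
    mul_le_mul_of_nonneg_right h6 (by linarith)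
  have h8 : 0 ≤ ε * Real.log (cnd N μ y) := by positivity
  linarith

/-- **Convexity**: from the line `1/2 + ρ` to the lines inside. -/
theorem innerZ (hm : 1 ≤ m) {Y : ℝ → Set ℝ} (hY : Nest Y) {ρ a κ : ℝ} (hρ : 0 < ρ) (hρ1 : ρ ≤ 1) (ha : 0 ≤ a)
    (hκ : 0 < κ) (h : ∀ T : ℝ, SY P (Y T) ρ a) (T r : ℝ) (hr : |r| ≤ ρ) :
    ∃ C0 : ℝ, ∀ (N : ℝ) (μ : Fin m → ℂ) (α : Fin m → ℕ → ℂ) (e : ℂ) (Λ : ℂ → ℂ), P N μ α e Λ → Std N μ α e Λ →
      ∀ y ∈ Y T, C0 ≤ cnd N μ y →
        ‖fy N Λ y (r : ℂ)‖ ≤ Gy N μ y * Real.exp (el N μ y * (ρ + 2 * a) + κ * el N μ y) := by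
  obtain ⟨κ1, R1, hκ1, hR1, HR⟩ := rect_all (4 + 2 * a) (2 * ρ) κ 1 (by positivity) (by linarith) (by linarith) hκ
    (by norm_num)
  obtain ⟨C1, H1⟩ := lineY (Y := Y T) hm hρ hρ1 ha hκ1 (by linarith : 0 ≤ R1)
    (fun y hy v hv => hY T R1 y (y + v) (by linarith) hy (by simpa using hv)) (h (T + R1))
  obtain ⟨C2, K, hK, H2⟩ := pfA hm one_pos le_rfl one_pos (le_max_right R1 1)
  refine ⟨max C1 C2, fun N μ α e Λ hP hS y hy hC => ?_⟩
  have g1 := (le_max_left _ _).trans hC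
  have g2 := (le_max_right _ _).trans hC
  obtain ⟨hℓ, ud, pf⟩ := H2 N μ α e Λ hS y g2
  have hG := Gy_pos hm hS.1.one_le hS.1.re_le y
  have hl := H1 N μ α e Λ hP hS y hy g1
  rw [abs_le] at hr
  have key := HR (el N μ y) (-ρ) (ρ + 2 * a) (ρ + 2 * a) (Gy N μ y) (fy N Λ y) (by linarith) hG ud.slow.1
    (by rw [abs_of_nonneg (by linarith)]; linarith) (by rw [abs_of_nonneg (by linarith)]; linarith)
    (fun w hw1 hw2 => by
      have e1 : w = -conj ((ρ : ℂ) + w.im * I) := by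
        apply Complex.ext <;> simp [hw1]
      rw [e1, fy_symm ud]
      exact hl w.im hw2)
    (fun w hw1 hw2 => by
      have e1 : w = (ρ : ℂ) + w.im * I := by
        apply Complex.ext
        · simp [hw1]; ring
        · simp
      rw [e1]
      exact hl w.im hw2)
    (fun w hw1 hw2 hw3 => by
      refine (pf.upp w ?_ ?_).trans ?_
      · rw [abs_le]
        have := le_max_right R1 1
        constructor <;> linarith
      · rw [hw3]; exact le_max_left _ _
      · apply mul_le_mul_of_nonneg_left _ hG.le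
        apply Real.exp_le_exp.2
        have h5 : max |w.re| (1 / 2 + 1) ≤ 3 := by
          apply max_le _ (by norm_num)
          rw [abs_le]
          constructor <;> linarith
        have h6 : el N μ y * max |w.re| (1 / 2 + 1) ≤ el N μ y * 3 := mul_le_mul_of_nonneg_left h5 (by linarith)
        have h7 : 0 ≤ el N μ y * (2 * a) := mul_nonneg (by linarith) (by linarith)
        linarith) (r : ℂ) (by rw [ofReal_re]; exact hr.1) (by rw [ofReal_re]; linarith [hr.2]) (by simp)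
  rwa [sub_self, zero_mul, add_zero] at key

/-- **Back to the line.** -/
theorem step2 (hm : 1 ≤ m) {Y : ℝ → Set ℝ} (hY : Nest Y) {r h E : ℝ} (hr : 0 ≤ r) (hh : 0 < h)
    (hr1 : r + h ≤ 1 / 2) (hE : 0 ≤ E) (hEx : ∀ T : ℝ, SY P (Y T) (r + h) E) (T : ℝ) :
    SY P (Y T) r (E + h / 2) := by
  intro ε hε
  obtain ⟨C0, HC⟩ := innerZ hm hY (by linarith : 0 < r + h) (by linarith) hE hε hEx T r
    (by rw [abs_of_nonneg hr]; linarith)
  obtain ⟨B2, HT⟩ := aut_triv_r m hm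
  refine ⟨max (462 * m + (2 * (E + h / 2) + ε) * (5 * m)) (B2 + 3 / 4 * Real.log (max C0 1)),
    fun N μ α e Λ hP hS y hy => ?_⟩
  have hN := hS.1.one_le
  have hμ := hS.1.re_le
  have hc := cnd_pos hN μ y
  have hL0 : 0 ≤ Real.log (cnd N μ y) := Real.log_nonneg hc
  rcases le_total (cnd N μ y) (max C0 1) with hsm | hbig
  · refine (HT N μ α e Λ hS.1 y r hr (by linarith)).trans (Real.exp_le_exp.2 ?_)
    have h3 : Real.log (cnd N μ y) ≤ Real.log (max C0 1) := Real.log_le_log (by linarith) hsm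
    have h4 := le_max_right (462 * m + (2 * (E + h / 2) + ε) * (5 * m)) (B2 + 3 / 4 * Real.log (max C0 1))
    have h5 : 0 ≤ (E + h / 2 + ε) * Real.log (cnd N μ y) := mul_nonneg (by linarith) hL0
    linarith
  · have h1 := HC N μ α e Λ hP hS y hy ((le_max_left _ _).trans hbig)
    have e2 : el N μ y * (r + h + 2 * E) + ε * el N μ y = el N μ y * (r + (2 * (E + h / 2) + ε)) := by ring
    rw [e2] at h1
    have h2 := LL_le_r hm hN hμ Λ y (r := r) (M := el N μ y * (r + (2 * (E + h / 2) + ε))) hr (by linarith) h1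
    refine h2.trans (Real.exp_le_exp.2 ?_)
    have h4 := le_max_left (462 * m + (2 * (E + h / 2) + ε) * (5 * m)) (B2 + 3 / 4 * Real.log (max C0 1))
    have h6 := el_le hN hμ y
    change 462 * (m : ℝ) + el N μ y * (r + (2 * (E + h / 2) + ε)) - el N μ y * r ≤ _
    have h7 : el N μ y * (2 * (E + h / 2) + ε) ≤
        (1 / 2 * Real.log (cnd N μ y) + 5 * m) * (2 * (E + h / 2) + ε) :=
      mul_le_mul_of_nonneg_right h6 (by positivity)
    have h9 : 0 ≤ ε * Real.log (cnd N μ y) := by positivity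
    have e3 : el N μ y * (r + (2 * (E + h / 2) + ε)) - el N μ y * r = el N μ y * (2 * (E + h / 2) + ε) := by ring
    linarith

end Pool.Agent.H875.TG
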