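import Pool.Agent.H875.TG.Base

set_option autoImplicit false

/-!
# Standard L-functions: the first Taylor coefficients at any abscissa determine the size
-/

namespace Pool.Agent.H875.TG

open Complex Filter Topology Set Metric
open Pool.Agent.W169.HF
open Pool.Agent.Hp428.LG
open H353.E H353.F
open scoped ComplexConjugate

variable {m : ℕ} {P : Cls m}

/-- a series with a good first part and a geometric majorant -/
lemma series {F : ℕ → ℂ} {z : ℂ} (hF : HasSum F z) {q A B : ℝ} (hq0 : 0 < q) (hq1 : q < 1) (hA : 0 ≤ A)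
    (hB : 0 ≤ B) (m : ℕ) (h1 : ∀ n < m, ‖F n‖ ≤ A) (h2 : ∀ n, ‖F n‖ ≤ q ^ n * B) :
    ‖z‖ ≤ m * A + q ^ m * (1 - q)⁻¹ * B := by
  have hs : Summable fun n => q ^ n * B := (summable_geometric_of_lt_one hq0.le hq1).mul_right B
  have hn : Summable fun n => ‖F n‖ := Summable.of_nonneg_of_le (fun _ => norm_nonneg _) h2 hs
  have h3 : ‖z‖ ≤ ∑' n, ‖F n‖ := by
    rw [← hF.tsum_eq]
    exact norm_tsum_le_tsum_norm hn
  refine h3.trans ?_
  rw [← hn.sum_add_tsum_nat_add m]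
  have h4 : ∑ n ∈ Finset.range m, ‖F n‖ ≤ m * A := by
    have := Finset.sum_le_card_nsmul (Finset.range m) (fun n => ‖F n‖) A (fun n hn => h1 n (Finset.mem_range.1 hn))
    rwa [Finset.card_range, nsmul_eq_mul] at this
  have h5 : ∑' n, ‖F (n + m)‖ ≤ ∑' n, q ^ n * (q ^ m * B) := by
    refine Summable.tsum_le_tsum (fun n => ?_) ((summable_nat_add_iff m).2 hn)
      ((summable_geometric_of_lt_one hq0.le hq1).mul_right _)
    refine (h2 (n + m)).trans (le_of_eq ?_)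
    rw [pow_add]; ring
  rw [tsum_mul_right, tsum_geometric_of_lt_one hq0.le hq1] at h5
  calc _ ≤ m * A + (1 - q)⁻¹ * (q ^ m * B) := add_le_add h4 h5
    _ = _ := by ring

/-- bounds for the derivatives of order `n ≤ (r₀ - r) / 2 log C` on the line `1/2 + r₀` -/
def DY (P : Cls m) (Y : Set ℝ) (r r0 a : ℝ) : Prop := ∀ ε : ℝ, 0 < ε → ∃ B : ℝ,
  ∀ (N : ℝ) (μ : Fin m → ℂ) (α : Fin m → ℕ → ℂ) (e : ℂ) (Λ : ℂ → ℂ), P N μ α e Λ → Std N μ α e Λ →
  ∀ y ∈ Y, ∀ n : ℕ, (n : ℝ) ≤ (r0 - r) / 2 * Real.log (cnd N μ y) →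
    ‖iteratedDeriv n (LL μ Λ) (1 / 2 + (r0 : ℂ) + (y : ℂ) * I)‖ ≤
      (n.factorial : ℝ) / (r0 - r) ^ n * Real.exp (B + (a + ε) * Real.log (cnd N μ y))

/-- Cauchy's estimate, all orders -/
theorem cauchy_all (hm : 1 ≤ m) {Y : ℝ → Set ℝ} (hY : Nest Y) {r r0 a : ℝ} (hr : 0 ≤ r) (hr1 : r ≤ 1 / 2)
    (hr0 : r < r0) (ha : 0 ≤ a) (h : ∀ T : ℝ, SY P (Y T) r a) (ε T : ℝ) (hε : 0 < ε) :
    ∃ B : ℝ, ∀ (N : ℝ) (μ : Fin m → ℂ) (α : Fin m → ℕ → ℂ) (e : ℂ) (Λ : ℂ → ℂ), P N μ α e Λ → Std N μ α e Λ →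
      ∀ y ∈ Y T, ∀ n : ℕ, ‖iteratedDeriv n (LL μ Λ) (1 / 2 + (r0 : ℂ) + (y : ℂ) * I)‖ ≤
        (n.factorial : ℝ) / (r0 - r) ^ n * Real.exp (B + (a + ε) * Real.log (cnd N μ y)) := by
  obtain ⟨B, HB⟩ := sup_right hm hY hr hr1 ha h ε (2 * r0 + 1) T hε (by linarith)
  refine ⟨B, fun N μ α e Λ hP hS y hy n => ?_⟩
  have hD : 0 < r0 - r := by linarith
  have hd : DiffContOnCl ℂ (LL μ Λ) (ball (1 / 2 + (r0 : ℂ) + (y : ℂ) * I) (r0 - r)) :=
    (LL_diff hS.1.entire).diffContOnCl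
  have h4 := Complex.norm_iteratedDeriv_le_of_forall_mem_sphere_norm_le n hD hd
    (C := Real.exp (B + (a + ε) * Real.log (cnd N μ y))) (by
      intro z hz
      rw [mem_sphere, dist_eq_norm] at hz
      obtain ⟨w, hw⟩ : ∃ w : ℂ, w = z - (1 / 2 + (r0 : ℂ) + (y : ℂ) * I) := ⟨_, rfl⟩
      rw [← hw] at hz
      have hre := (abs_le.1 ((abs_re_le_norm w).trans hz.le))
      have him := (abs_im_le_norm w).trans hz.le
      have e1 : LL μ Λ z = ly μ Λ y (r0 + w) := by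
        unfold ly
        congr 1
        rw [hw]; ring
      rw [e1]
      apply HB N μ α e Λ hP hS y hy
      · rw [add_re, ofReal_re]; linarith
      · rw [add_re, ofReal_re]; linarith
      · rw [add_im, ofReal_im, zero_add]; linarith)
  refine h4.trans (le_of_eq ?_)
  ring

/-- towards the critical line -/
theorem step1 (hm : 1 ≤ m) {Y : ℝ → Set ℝ} (hY : Nest Y) {r r0 c e' h : ℝ} (hr : 0 ≤ r) (hr1 : r ≤ 1 / 2)
    (hr0 : r < r0) (hc : 0 ≤ c) (he : 0 ≤ e') (hh : 0 < h) (hh2 : h < r0 - r)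
    (hEx : ∀ T : ℝ, SY P (Y T) r e') (hDB : ∀ T : ℝ, DY P (Y T) r r0 c) (T : ℝ) :
    SY P (Y T) (r + h) (max c (e' + (r0 - r) / 2 * Real.log (1 - h / (r0 - r)))) := by
  obtain ⟨D, hD⟩ : ∃ D, D = r0 - r := ⟨_, rfl⟩
  obtain ⟨q, hq⟩ : ∃ q, q = 1 - h / D := ⟨_, rfl⟩
  obtain ⟨E, hE⟩ : ∃ E, E = max c (e' + D / 2 * Real.log q) := ⟨_, rfl⟩
  have hE1 : c ≤ E := by rw [hE]; exact le_max_left _ _
  have hE2 : e' + D / 2 * Real.log q ≤ E := by rw [hE]; exact le_max_right _ _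
  have hD0 : 0 < D := by rw [hD]; linarith
  have hhD : h / D < 1 := by rw [div_lt_one hD0, hD]; exact hh2
  have hhD0 : 0 < h / D := by positivity
  have hq0 : 0 < q := by rw [hq]; linarith
  have hq1 : q < 1 := by rw [hq]; linarith
  rw [← hD, ← hq, ← hE]
  intro ε hε
  obtain ⟨B1, k1⟩ := hDB T (ε / 2) (by linarith)
  obtain ⟨B2, k2⟩ := cauchy_all hm hY hr hr1 hr0 he hEx (ε / 2) T (by linarith)
  obtain ⟨BB, hBB⟩ : ∃ BB, BB = max B1 B2 := ⟨_, rfl⟩
  have hinv : 0 < (1 - q)⁻¹ := inv_pos.2 (by linarith)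
  obtain ⟨K, hK⟩ : ∃ K, K = D / ε + 1 + (1 - q)⁻¹ := ⟨_, rfl⟩
  have hK0 : 0 < K := by rw [hK]; positivity
  refine ⟨Real.log K + BB, fun N μ α e Λ hP hS y hy => ?_⟩
  obtain ⟨L, hL⟩ : ∃ L, L = Real.log (cnd N μ y) := ⟨_, rfl⟩
  have hL0 : 0 ≤ L := by rw [hL]; exact Real.log_nonneg (cnd_pos hS.1.one_le μ y)
  have k1 := k1 N μ α e Λ hP hS y hy
  have k2 := k2 N μ α e Λ hP hS y hy
  rw [← hL, ← hD] at k1 k2
  rw [← hL]
  obtain ⟨s0, hs0⟩ : ∃ s0 : ℂ, s0 = 1 / 2 + (r0 : ℂ) + (y : ℂ) * I := ⟨_, rfl⟩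
  obtain ⟨z, hz⟩ : ∃ z : ℂ, z = 1 / 2 + ((r + h : ℝ) : ℂ) + (y : ℂ) * I := ⟨_, rfl⟩
  have hzs : z - s0 = (((-(D - h) : ℝ)) : ℂ) := by
    rw [hz, hs0, hD]; push_cast; ring
  have hDh : 0 < D - h := by rw [hD]; linarith
  have hnz : ‖z - s0‖ = D - h := by
    rw [hzs, Complex.norm_real, Real.norm_eq_abs, abs_neg, abs_of_pos hDh]
  have hsum := Complex.hasSum_taylorSeries_on_ball (f := LL μ Λ) (c := s0) (r := D) (z := z)
    ((LL_diff hS.1.entire).differentiableOn) (by rw [mem_ball, dist_eq_norm, hnz]; linarith)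
  obtain ⟨M, hM⟩ : ∃ M : ℕ, M = ⌊D / 2 * L⌋₊ + 1 := ⟨_, rfl⟩
  have hm0 : 0 ≤ D / 2 * L := by positivity
  have hm1 : (M : ℝ) ≤ D / 2 * L + 1 := by
    rw [hM]; push_cast
    have := Nat.floor_le hm0
    linarith
  have hm2 : D / 2 * L ≤ M := by
    rw [hM]; push_cast
    exact (Nat.lt_floor_add_one _).le
  have hqD : q = (D - h) / D := by rw [hq]; field_simp
  have hterm2 : ∀ (n : ℕ) (B : ℝ), ‖iteratedDeriv n (LL μ Λ) s0‖ ≤ (n.factorial : ℝ) / D ^ n * B →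
      ‖((n.factorial : ℂ))⁻¹ • (z - s0) ^ n • iteratedDeriv n (LL μ Λ) s0‖ ≤ q ^ n * B := by
    intro n B hB
    rw [norm_smul, norm_smul, norm_inv, norm_pow, hnz, Complex.norm_natCast, hqD, div_pow]
    have hf : (0 : ℝ) < n.factorial := by exact_mod_cast n.factorial_pos
    have hDn : 0 < D ^ n := by positivity
    have hDhn : 0 < (D - h) ^ n := by positivity
    calc (n.factorial : ℝ)⁻¹ * ((D - h) ^ n * ‖iteratedDeriv n (LL μ Λ) s0‖)
        ≤ (n.factorial : ℝ)⁻¹ * ((D - h) ^ n * ((n.factorial : ℝ) / D ^ n * B)) :=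
          mul_le_mul_of_nonneg_left (mul_le_mul_of_nonneg_left hB hDhn.le) (by positivity)
      _ = _ := by field_simp
  have hfin := series hsum hq0 hq1 (A := Real.exp (BB + (c + ε / 2) * L)) (B := Real.exp (BB + (e' + ε / 2) * L))
    (by positivity) (by positivity) M (by
      intro n hn
      have hn1 : (n : ℝ) ≤ D / 2 * L := by
        have h4 : n ≤ ⌊D / 2 * L⌋₊ := by omega
        exact (Nat.le_floor_iff hm0).1 h4
      have h5 := k1 n hn1
      rw [← hs0] at h5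
      refine (hterm2 n _ h5).trans ?_
      calc q ^ n * Real.exp (B1 + (c + ε / 2) * L) ≤ 1 * Real.exp (B1 + (c + ε / 2) * L) :=
            mul_le_mul_of_nonneg_right (pow_le_one₀ hq0.le hq1.le) (Real.exp_pos _).le
        _ ≤ _ := by
            rw [one_mul]
            apply Real.exp_le_exp.2
            have : B1 ≤ BB := by rw [hBB]; exact le_max_left _ _
            linarith)
    (by
      intro n
      have h5 := k2 n
      rw [← hs0] at h5
      refine (hterm2 n _ h5).trans ?_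
      apply mul_le_mul_of_nonneg_left _ (by positivity)
      apply Real.exp_le_exp.2
      have : B2 ≤ BB := by rw [hBB]; exact le_max_right _ _
      linarith)
  rw [← hz]
  refine hfin.trans ?_
  have hqm : q ^ M ≤ Real.exp (D / 2 * L * Real.log q) := by
    rw [← Real.rpow_natCast, Real.rpow_def_of_pos hq0]
    apply Real.exp_le_exp.2
    have hlq : Real.log q < 0 := Real.log_neg hq0 hq1
    nlinarith
  have e1 : Real.exp (BB + (c + ε / 2) * L) ≤ Real.exp (BB + (E + ε / 2) * L) := by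
    apply Real.exp_le_exp.2
    have := mul_le_mul_of_nonneg_right hE1 hL0
    linarith
  have e2 : q ^ M * Real.exp (BB + (e' + ε / 2) * L) ≤ Real.exp (BB + (E + ε / 2) * L) := by
    calc q ^ M * Real.exp (BB + (e' + ε / 2) * L)
        ≤ Real.exp (D / 2 * L * Real.log q) * Real.exp (BB + (e' + ε / 2) * L) :=
          mul_le_mul_of_nonneg_right hqm (by positivity)
      _ = Real.exp (BB + ((e' + D / 2 * Real.log q) + ε / 2) * L) := by rw [← Real.exp_add]; congr 1; ring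
      _ ≤ _ := by
          apply Real.exp_le_exp.2
          have := mul_le_mul_of_nonneg_right hE2 hL0
          linarith
  have hP0 : 0 ≤ Real.exp (BB + (E + ε / 2) * L) := by positivity
  have h9 : (M : ℝ) + (1 - q)⁻¹ ≤ K * Real.exp (ε / 2 * L) := by
    have h10 : ε / 2 * L + 1 ≤ Real.exp (ε / 2 * L) := Real.add_one_le_exp _
    have h11 : 0 ≤ ε / 2 * L := by positivity
    have h12 : D / 2 * L = D / ε * (ε / 2 * L) := by field_simp
    have h13 : D / ε * (ε / 2 * L) ≤ D / ε * Real.exp (ε / 2 * L) :=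
      mul_le_mul_of_nonneg_left (by linarith) (by positivity)
    have h14 : 1 * (1 + (1 - q)⁻¹) ≤ Real.exp (ε / 2 * L) * (1 + (1 - q)⁻¹) :=
      mul_le_mul_of_nonneg_right (by linarith) (by positivity)
    rw [hK]
    linarith
  calc (M : ℝ) * Real.exp (BB + (c + ε / 2) * L) + q ^ M * (1 - q)⁻¹ * Real.exp (BB + (e' + ε / 2) * L)
      = (M : ℝ) * Real.exp (BB + (c + ε / 2) * L) +
        (1 - q)⁻¹ * (q ^ M * Real.exp (BB + (e' + ε / 2) * L)) := by ring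
    _ ≤ (M : ℝ) * Real.exp (BB + (E + ε / 2) * L) + (1 - q)⁻¹ * Real.exp (BB + (E + ε / 2) * L) :=
        add_le_add (mul_le_mul_of_nonneg_left e1 (Nat.cast_nonneg _)) (mul_le_mul_of_nonneg_left e2 hinv.le)
    _ = (M + (1 - q)⁻¹) * Real.exp (BB + (E + ε / 2) * L) := by ring
    _ ≤ (K * Real.exp (ε / 2 * L)) * Real.exp (BB + (E + ε / 2) * L) := mul_le_mul_of_nonneg_right h9 hP0
    _ = Real.exp (Real.log K + BB + (E + ε) * L) := by
        rw [mul_assoc, ← Real.exp_add, add_assoc (Real.log K), Real.exp_add (Real.log K), Real.exp_log hK0]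
        congr 2
        ring

lemma sy_mono {Y : Set ℝ} {r a a' : ℝ} (h : a ≤ a') (hE : SY P Y r a) : SY P Y r a' := by
  intro ε hε
  obtain ⟨B, HB⟩ := hE ε hε
  refine ⟨B, fun N μ α e Λ hP hS y hy => (HB N μ α e Λ hP hS y hy).trans (Real.exp_le_exp.2 ?_)⟩
  have := Real.log_nonneg (cnd_pos hS.1.one_le μ y)
  nlinarith

/-- the convexity bound -/
lemma sy_start (hm : 1 ≤ m) (Y : Set ℝ) {r : ℝ} (hr : 0 ≤ r) (hr1 : r ≤ 1 / 2) : SY P Y r (1 / 4) := by
  apply sy_mono (show (1 / 2 - r) / 2 ≤ 1 / 4 by linarith)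
  intro ε hε
  obtain ⟨B, HB⟩ := conv_ser (P := P) hm r hr hr1 ε hε
  exact ⟨B, fun N μ α e Λ hP hS y _ => HB N μ α e Λ hP hS y⟩

/-- the size from the derivatives -/
theorem sy_of_dy (hm : 1 ≤ m) {Y : ℝ → Set ℝ} (hY : Nest Y) {r r0 c : ℝ} (hr : 0 ≤ r) (hr1 : r < 1 / 2)
    (hr0 : r < r0) (hc : 0 ≤ c) (hDB : ∀ T : ℝ, DY P (Y T) r r0 c) (T : ℝ) : SY P (Y T) r c := by
  obtain ⟨S, hS⟩ : ∃ S : Set ℝ, S = {e : ℝ | 0 ≤ e ∧ ∀ T : ℝ, SY P (Y T) r e} := ⟨_, rfl⟩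
  have hS1 : (1 / 4 : ℝ) ∈ S := by rw [hS]; exact ⟨by norm_num, fun T => sy_start hm (Y T) hr hr1.le⟩
  have hSb : BddBelow S := ⟨0, fun x hx => by rw [hS] at hx; exact hx.1⟩
  obtain ⟨e0, he0⟩ : ∃ e0 : ℝ, e0 = sInf S := ⟨_, rfl⟩
  have he1 : e0 ≤ 1 / 4 := by rw [he0]; exact csInf_le hSb hS1
  have he2 : 0 ≤ e0 := by rw [he0]; exact le_csInf ⟨_, hS1⟩ fun x hx => by rw [hS] at hx; exact hx.1
  have hEx : ∀ T : ℝ, SY P (Y T) r e0 := by
    intro T ε hε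
    obtain ⟨e, heS, he⟩ := exists_lt_of_csInf_lt ⟨_, hS1⟩ (show sInf S < e0 + ε / 2 by rw [← he0]; linarith)
    rw [hS] at heS
    obtain ⟨B, HB⟩ := heS.2 T (ε / 2) (by linarith)
    refine ⟨B, fun N μ α e' Λ hP hS' y hy => (HB N μ α e' Λ hP hS' y hy).trans (Real.exp_le_exp.2 ?_)⟩
    have h4 := Real.log_nonneg (cnd_pos hS'.1.one_le μ y)
    have h5 : (e + ε / 2) * Real.log (cnd N μ y) ≤ (e0 + ε) * Real.log (cnd N μ y) :=
      mul_le_mul_of_nonneg_right (by linarith) h4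
    linarith
  rcases le_or_gt e0 c with h4 | h4
  · exact sy_mono h4 (hEx T)
  exfalso
  obtain ⟨h, hh⟩ : ∃ h : ℝ, h = min (e0 - c) (min ((r0 - r) / 2) (1 / 2 - r)) := ⟨_, rfl⟩
  have a0 : 0 < h := by
    rw [hh]; exact lt_min (by linarith) (lt_min (by linarith) (by linarith))
  have a1 : h ≤ e0 - c := by rw [hh]; exact min_le_left _ _
  have a2 : h ≤ (r0 - r) / 2 := by rw [hh]; exact (min_le_right _ _).trans (min_le_left _ _)
  have a3 : h ≤ 1 / 2 - r := by rw [hh]; exact (min_le_right _ _).trans (min_le_right _ _)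
  have hD : 0 < r0 - r := by linarith
  have s1 := step1 hm hY hr hr1.le hr0 hc he2 a0 (by linarith) hEx hDB
  obtain ⟨E, hE⟩ : ∃ E, E = max c (e0 + (r0 - r) / 2 * Real.log (1 - h / (r0 - r))) := ⟨_, rfl⟩
  rw [← hE] at s1
  have hy0 : 0 < h / (r0 - r) := by positivity
  have hy1 : h / (r0 - r) < 1 := by rw [div_lt_one hD]; linarith
  have hlog : Real.log (1 - h / (r0 - r)) < -(h / (r0 - r)) := by
    have := Real.log_lt_sub_one_of_pos (x := 1 - h / (r0 - r)) (by linarith) (by linarith)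
    linarith
  have hlog2 : (r0 - r) / 2 * Real.log (1 - h / (r0 - r)) < -(h / 2) := by
    have h5 := mul_lt_mul_of_pos_left hlog (show 0 < (r0 - r) / 2 by linarith)
    have h6 : (r0 - r) / 2 * -(h / (r0 - r)) = -(h / 2) := by field_simp
    linarith
  have hElt : E + h / 2 < e0 := by
    rw [hE]
    have : max c (e0 + (r0 - r) / 2 * Real.log (1 - h / (r0 - r))) < e0 - h / 2 :=
      max_lt (by linarith) (by linarith)
    linarith
  have hE0 : 0 ≤ E := by rw [hE]; exact hc.trans (le_max_left _ _)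
  have s2 := step2 hm hY hr a0 (by linarith) hE0 s1
  have hmem : E + h / 2 ∈ S := by rw [hS]; exact ⟨by linarith, s2⟩
  have := csInf_le hSb hmem
  rw [← he0] at this
  linarith

/-- **The equivalence.** -/
theorem sy_iff_dy (hm : 1 ≤ m) {Y : ℝ → Set ℝ} (hY : Nest Y) {r r0 c : ℝ} (hr : 0 ≤ r) (hr1 : r < 1 / 2)
    (hr0 : r < r0) (hc : 0 ≤ c) : (∀ T : ℝ, SY P (Y T) r c) ↔ ∀ T : ℝ, DY P (Y T) r r0 c := by
  constructor
  · intro h T ε hε
    obtain ⟨B, HB⟩ := cauchy_all hm hY hr hr1.le hr0 hc h ε T hε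
    exact ⟨B, fun N μ α e Λ hP hS y hy n _ => HB N μ α e Λ hP hS y hy n⟩
  · intro h T
    exact sy_of_dy hm hY hr hr1 hr0 hc h T

end Pool.Agent.H875.TG
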